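import Mathlib

/-!
# Edge-disjoint copies of a graph with a cut vertex

If `F - v` is disconnected, two copies of `F` with the same image of `v` can be glued to a third one,
unless a part of the first meets the other part of the second. The number of copies is bounded by
a set pair inequality.
-/

set_option autoImplicit false

namespace Pool.Agent.J6H5.CV

open Finset

/-- a set pair inequality (weak form of Bollobas' theorem) -/
theorem set_pairs {V ι : Type*} [Fintype V] [DecidableEq V] [Fintype ι] (k : ℕ)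
    (A B : ι → Finset V) (h1 : ∀ i, Disjoint (A i) (B i)) (h2 : ∀ i, (A i).card + (B i).card ≤ k)
    (h3 : ∀ i j, i ≠ j → ¬ Disjoint (A i) (B j)) : Fintype.card ι ≤ 2 ^ k := by
  classical
  have hsub : ∀ i, A i ⊆ (B i)ᶜ := by
    intro i x hx
    rw [Finset.mem_compl]
    exact fun hx' => Finset.disjoint_left.1 (h1 i) hx hx'
  have hcard : ∀ i, (Finset.Icc (A i) (B i)ᶜ).card =
      2 ^ (Fintype.card V - (B i).card - (A i).card) := fun i => by
    rw [Finset.card_Icc_finset (hsub i), Finset.card_compl]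
  have hU : ((Finset.univ : Finset ι).biUnion fun i => Finset.Icc (A i) (B i)ᶜ).card =
      ∑ i, (Finset.Icc (A i) (B i)ᶜ).card := by
    refine Finset.card_biUnion fun i _ j _ hij => ?_
    rw [Function.onFun, Finset.disjoint_left]
    intro X hX hX'
    rw [Finset.mem_Icc] at hX hX'
    refine h3 i j hij (Finset.disjoint_left.2 fun x hx hx' => ?_)
    exact Finset.mem_compl.1 (hX'.2 (hX.1 hx)) hx'
  have hle : ∑ i, (Finset.Icc (A i) (B i)ᶜ).card ≤ 2 ^ Fintype.card V := by
    rw [← hU]
    refine (Finset.card_le_univ _).trans ?_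
    rw [Fintype.card_finset]
  have hge : Fintype.card ι * 2 ^ (Fintype.card V - k) ≤
      ∑ i, (Finset.Icc (A i) (B i)ᶜ).card := by
    have : ∑ _i : ι, 2 ^ (Fintype.card V - k) = Fintype.card ι * 2 ^ (Fintype.card V - k) := by
      rw [Finset.sum_const, Finset.card_univ, smul_eq_mul]
    rw [← this]
    refine Finset.sum_le_sum fun i _ => ?_
    rw [hcard i]
    refine Nat.pow_le_pow_right (by norm_num) ?_
    have := h2 i
    omega
  have h4 : 2 ^ Fintype.card V ≤ 2 ^ k * 2 ^ (Fintype.card V - k) := by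
    rw [← pow_add]
    exact Nat.pow_le_pow_right (by norm_num) (by omega)
  exact Nat.le_of_mul_le_mul_right ((hge.trans hle).trans h4) (by positivity)

section

variable {W V : Type*} {F : SimpleGraph W} {H : SimpleGraph V}

theorem adj_iff (c : F.Copy H) {x y : V} :
    c.toSubgraph.Adj x y ↔ ∃ a b, F.Adj a b ∧ c a = x ∧ c b = y := by
  rw [SimpleGraph.Copy.toSubgraph, SimpleGraph.Subgraph.map_adj]
  exact Iff.rfl

theorem mem_verts (c : F.Copy H) {x : V} : x ∈ c.toSubgraph.verts ↔ ∃ a, c a = x := by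
  rw [SimpleGraph.Copy.toSubgraph, SimpleGraph.Subgraph.map_verts]
  constructor
  · rintro ⟨a, _, rfl⟩
    exact ⟨a, rfl⟩
  · rintro ⟨a, rfl⟩
    exact ⟨a, trivial, rfl⟩

/-- two copies with the same image of `v` can be glued -/
theorem glue (P : Set W) (v : W) (hv : v ∉ P)
    (hPQ : ∀ a b, a ∈ P → b ∉ P → b ≠ v → ¬ F.Adj a b) (c d : F.Copy H) (hcd : c v = d v)
    (hdis : ∀ p ∈ P, ∀ q, q ∉ P → q ≠ v → c p ≠ d q) :
    ∃ e : F.Copy H, (∀ a ∈ P, e a = c a) ∧ (∀ a, a ∉ P → e a = d a) := by
  classical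
  have hx : ∀ a b, a ∈ P → b ∉ P → c a ≠ d b := by
    intro a b ha hb hab
    by_cases hbv : b = v
    · rw [hbv, ← hcd] at hab
      exact hv (c.injective hab ▸ ha)
    · exact hdis a ha b hb hbv hab
  have hinj : Function.Injective (fun a => if a ∈ P then c a else d a) := by
    intro a b hab
    simp only at hab
    by_cases ha : a ∈ P <;> by_cases hb : b ∈ P
    · rw [if_pos ha, if_pos hb] at hab
      exact c.injective hab
    · rw [if_pos ha, if_neg hb] at hab
      exact absurd hab (hx a b ha hb)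
    · rw [if_neg ha, if_pos hb] at hab
      exact absurd hab.symm (hx b a hb ha)
    · rw [if_neg ha, if_neg hb] at hab
      exact d.injective hab
  refine ⟨⟨⟨fun a => if a ∈ P then c a else d a, ?_⟩, hinj⟩, ?_, ?_⟩
  · intro a b hab
    by_cases ha : a ∈ P <;> by_cases hb : b ∈ P
    · simp only [if_pos ha, if_pos hb]
      exact c.toHom.map_adj hab
    · have hbv : b = v := by
        by_contra h
        exact hPQ a b ha hb h hab
      subst hbv
      simp only [if_pos ha, if_neg hb, ← hcd]
      exact c.toHom.map_adj hab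
    · have hav : a = v := by
        by_contra h
        exact hPQ b a hb ha h hab.symm
      subst hav
      simp only [if_neg ha, if_pos hb, ← hcd]
      exact c.toHom.map_adj hab
    · simp only [if_neg ha, if_neg hb]
      exact d.toHom.map_adj hab
  · intro a ha
    exact if_pos ha
  · intro a ha
    exact if_neg ha

variable {ι : Type*}

theorem eq_of_edge {c : ι → F.Copy H}
    (hd : Pairwise fun i j => Disjoint (c i).toSubgraph.edgeSet (c j).toSubgraph.edgeSet)
    {i j : ι} {x y : V} (h1 : (c i).toSubgraph.Adj x y) (h2 : (c j).toSubgraph.Adj x y) :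
    i = j := by
  by_contra hne
  exact Set.disjoint_left.1 (hd hne) (SimpleGraph.Subgraph.mem_edgeSet.2 h1)
    (SimpleGraph.Subgraph.mem_edgeSet.2 h2)

open scoped Classical in
/-- the number of copies with a given image of `v` -/
theorem count [Fintype W] [Fintype V] [Fintype ι] (P : Set W) (v : W) (hv : v ∉ P)
    (hP : P.Nonempty) (hQ : ∃ q, q ∉ P ∧ q ≠ v)
    (hPQ : ∀ a b, a ∈ P → b ∉ P → b ≠ v → ¬ F.Adj a b)
    (hiso : ∀ a, ∃ b, F.Adj a b) {c : ι → F.Copy H}
    (hd : Pairwise fun i j => Disjoint (c i).toSubgraph.edgeSet (c j).toSubgraph.edgeSet)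
    (hno : ∀ e : F.Copy H, ∃ i, e.toSubgraph = (c i).toSubgraph) (z : V) :
    Fintype.card {i // c i v = z} ≤ 2 ^ (Fintype.card W - 1) := by
  have hinj : ∀ i, Function.Injective (c i) := fun i => (c i).injective
  refine set_pairs _
    (fun i : {i // c i v = z} => (Finset.univ.filter fun a => a ∈ P).image (c i.1))
    (fun i : {i // c i v = z} =>
      (Finset.univ.filter fun a => a ∉ P ∧ a ≠ v).image (c i.1)) ?_ ?_ ?_
  · intro i
    rw [Finset.disjoint_left]
    intro x hx hx'
    rw [Finset.mem_image] at hx hx'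
    obtain ⟨a, ha, rfl⟩ := hx
    obtain ⟨b, hb, hab⟩ := hx'
    rw [Finset.mem_filter] at ha hb
    have := hinj i hab
    rw [this] at hb
    exact hb.2.1 ha.2
  · intro i
    rw [Finset.card_image_of_injective _ (hinj i), Finset.card_image_of_injective _ (hinj i),
      ← Finset.card_union_of_disjoint]
    · have hsub : (Finset.univ.filter fun a => a ∈ P) ∪
          (Finset.univ.filter fun a => a ∉ P ∧ a ≠ v) ⊆ Finset.univ.erase v := by
        intro x hx
        rw [Finset.mem_union, Finset.mem_filter, Finset.mem_filter] at hx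
        rw [Finset.mem_erase]
        refine ⟨?_, Finset.mem_univ _⟩
        rcases hx with hx | hx
        · rintro rfl
          exact hv hx.2
        · exact hx.2.2
      refine (Finset.card_le_card hsub).trans ?_
      rw [Finset.card_erase_of_mem (Finset.mem_univ _), Finset.card_univ]
    · rw [Finset.disjoint_left]
      intro x hx hx'
      rw [Finset.mem_filter] at hx hx'
      exact hx'.2.1 hx.2
  · rintro ⟨i, hzi⟩ ⟨j, hzj⟩ hij hdis
    simp only at hdis
    have hij' : i ≠ j := fun h => hij (Subtype.ext h)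
    obtain ⟨e, he1, he2⟩ := glue P v hv hPQ (c i) (c j) (hzi.trans hzj.symm) (by
      intro p hp q hq hqv hpq
      have hm1 : c i p ∈ (Finset.univ.filter fun a => a ∈ P).image (c i) :=
        Finset.mem_image.2 ⟨p, Finset.mem_filter.2 ⟨Finset.mem_univ _, hp⟩, rfl⟩
      have hm2 : c i p ∈ (Finset.univ.filter fun a => a ∉ P ∧ a ≠ v).image (c j) :=
        Finset.mem_image.2 ⟨q, Finset.mem_filter.2 ⟨Finset.mem_univ _, hq, hqv⟩, hpq.symm⟩
      exact Finset.disjoint_left.1 hdis hm1 hm2)
    obtain ⟨l, hl⟩ := hno e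
    have hev : e v = c i v := by rw [he2 v hv, hzi, hzj]
    obtain ⟨p, hp⟩ := hP
    obtain ⟨u, hu⟩ := hiso p
    have heu : e u = c i u := by
      by_cases huP : u ∈ P
      · exact he1 u huP
      · have huv : u = v := by
          by_contra h
          exact hPQ p u hp huP h hu
        rw [huv, hev]
    have h1 : l = i := by
      refine eq_of_edge hd (x := c i p) (y := c i u) ?_ ?_
      · rw [← hl, adj_iff]
        exact ⟨p, u, hu, he1 p hp, heu⟩
      · rw [adj_iff]
        exact ⟨p, u, hu, rfl, rfl⟩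
    obtain ⟨q, hq, hqv⟩ := hQ
    obtain ⟨w, hw⟩ := hiso q
    have hwP : w ∉ P := fun h => hPQ w q h hq hqv hw.symm
    have h2 : l = j := by
      refine eq_of_edge hd (x := c j q) (y := c j w) ?_ ?_
      · rw [← hl, adj_iff]
        exact ⟨q, w, hw, he2 q hq, he2 w hwP⟩
      · rw [adj_iff]
        exact ⟨q, w, hw, rfl, rfl⟩
    exact hij' (h1.symm.trans h2)

/-- graphs with an isolated vertex -/
theorem isolated [Fintype W] [Fintype V] (w a b : W) (hw : ∀ x, ¬ F.Adj w x) (hab : F.Adj a b)
    {c : ι → F.Copy H}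
    (hd : Pairwise fun i j => Disjoint (c i).toSubgraph.edgeSet (c j).toSubgraph.edgeSet)
    (hn : Fintype.card W < Fintype.card V) (i₀ : ι) :
    ∃ e : F.Copy H, ∀ i, e.toSubgraph ≠ (c i).toSubgraph := by
  classical
  obtain ⟨x, hx⟩ : ∃ x, ∀ y, c i₀ y ≠ x := by
    by_contra hcon
    push Not at hcon
    have := Fintype.card_le_of_surjective (c i₀) hcon
    omega
  have hadj : ∀ y z, F.Adj y z → y ≠ w ∧ z ≠ w := by
    intro y z hyz
    constructor
    · rintro rfl
      exact hw z hyz
    · rintro rfl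
      exact hw y hyz.symm
  have hinj : Function.Injective (fun y => if y = w then x else c i₀ y) := by
    intro y z hyz
    simp only at hyz
    by_cases hy : y = w <;> by_cases hz : z = w
    · rw [hy, hz]
    · rw [if_pos hy, if_neg hz] at hyz
      exact absurd hyz.symm (hx z)
    · rw [if_neg hy, if_pos hz] at hyz
      exact absurd hyz (hx y)
    · rw [if_neg hy, if_neg hz] at hyz
      exact (c i₀).injective hyz
  have hhom : ∀ {y z}, F.Adj y z →
      H.Adj (if y = w then x else c i₀ y) (if z = w then x else c i₀ z) := by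
    intro y z hyz
    obtain ⟨h1, h2⟩ := hadj y z hyz
    rw [if_neg h1, if_neg h2]
    exact (c i₀).toHom.map_adj hyz
  refine ⟨⟨⟨fun y => if y = w then x else c i₀ y, hhom⟩, hinj⟩, fun l hl => ?_⟩
  set e : F.Copy H := ⟨⟨fun y => if y = w then x else c i₀ y, hhom⟩, hinj⟩ with he
  have he1 : ∀ y, y ≠ w → e y = c i₀ y := fun y hy => if_neg hy
  have he2 : e w = x := if_pos rfl
  have hli : l = i₀ := by
    refine eq_of_edge hd (x := c i₀ a) (y := c i₀ b) ?_ ?_
    · rw [← hl, adj_iff]
      exact ⟨a, b, hab, he1 a (hadj a b hab).1, he1 b (hadj a b hab).2⟩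
    · rw [adj_iff]
      exact ⟨a, b, hab, rfl, rfl⟩
  subst hli
  have hm : c l w ∈ e.toSubgraph.verts := by
    rw [hl, mem_verts]
    exact ⟨w, rfl⟩
  rw [mem_verts] at hm
  obtain ⟨y, hy⟩ := hm
  by_cases hyw : y = w
  · rw [hyw, he2] at hy
    exact hx w hy.symm
  · rw [he1 y hyw] at hy
    exact hyw ((c l).injective hy)

/-- **Main theorem.** -/
theorem main [Fintype W] [Fintype V] [Fintype ι] (hF : F ≠ ⊥) (v : W)
    (hv : ¬ (F.induce {v}ᶜ).Connected) {c : ι → F.Copy H}
    (hd : Pairwise fun i j => Disjoint (c i).toSubgraph.edgeSet (c j).toSubgraph.edgeSet)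
    (hn : Fintype.card W < Fintype.card V)
    (hm : 2 ^ (Fintype.card W - 1) * Fintype.card V < Fintype.card ι) :
    ∃ e : F.Copy H, ∀ i, e.toSubgraph ≠ (c i).toSubgraph := by
  classical
  obtain ⟨a, b, hab⟩ : ∃ a b, F.Adj a b := by
    by_contra hcon
    push Not at hcon
    apply hF
    ext a b
    simp [hcon a b]
  by_cases hiso : ∀ y, ∃ z, F.Adj y z
  swap
  · push Not at hiso
    obtain ⟨w, hw⟩ := hiso
    have hpos : 0 < Fintype.card ι := by omega
    obtain ⟨i₀⟩ := Fintype.card_pos_iff.1 hpos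
    exact isolated w a b hw hab hd hn i₀
  by_contra hcon
  push Not at hcon
  -- the two parts of `F - v`
  have hne : Nonempty ({v}ᶜ : Set W) := by
    by_cases hav : a = v
    · refine ⟨⟨b, ?_⟩⟩
      rintro (rfl : b = v)
      exact hab.ne hav
    · exact ⟨⟨a, hav⟩⟩
  have hpre : ¬ (F.induce {v}ᶜ).Preconnected := fun h => hv ⟨h⟩
  unfold SimpleGraph.Preconnected at hpre
  push Not at hpre
  obtain ⟨x, y, hxy⟩ := hpre
  set P : Set W := {w | ∃ hw : w ∈ ({v}ᶜ : Set W), (F.induce {v}ᶜ).Reachable x ⟨w, hw⟩} with hP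
  have hvP : v ∉ P := fun ⟨hw, _⟩ => hw rfl
  have hxP : (x : W) ∈ P := ⟨x.2, SimpleGraph.Reachable.refl _⟩
  have hyP : (y : W) ∉ P := fun ⟨_, h⟩ => hxy h
  have hPQ : ∀ a b, a ∈ P → b ∉ P → b ≠ v → ¬ F.Adj a b := by
    rintro a b ⟨ha, hxa⟩ hb hbv hab
    refine hb ⟨hbv, hxa.trans ?_⟩
    exact SimpleGraph.Adj.reachable (by simpa using hab)
  have hcount : ∀ z : V, Fintype.card {i // c i v = z} ≤ 2 ^ (Fintype.card W - 1) :=
    fun z => count P v hvP ⟨x, hxP⟩ ⟨y, hyP, y.2⟩ hPQ hiso hd hcon z
  have hcard : Fintype.card ι = ∑ z : V, Fintype.card {i // c i v = z} := by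
    rw [← Fintype.card_sigma]
    exact Fintype.card_congr (Equiv.sigmaFiberEquiv (fun i => c i v)).symm
  have hle : Fintype.card ι ≤ 2 ^ (Fintype.card W - 1) * Fintype.card V := by
    rw [hcard]
    refine (Finset.sum_le_sum fun z _ => hcount z).trans ?_
    rw [Finset.sum_const, Finset.card_univ, smul_eq_mul, mul_comm]
  omega

end

end Pool.Agent.J6H5.CV
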