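import Pool.Agent.J6H5.CV.Main

/-!
# Many copies

The quantitative form: the number of all copies is at least `m ^ 2 / (2 ^ (|F| - 1) n)`.
-/

set_option autoImplicit false

namespace Pool.Agent.J6H5.CV

open Finset

/-- double counting -/
theorem double {Y ι : Type*} [Fintype Y] [DecidableEq Y] [Fintype ι] [DecidableEq ι]
    (E : ι → Finset Y) (M : ℕ) (hE : ∀ i, (E i).card = M) (g : Finset (ι × ι))
    (hg : ∀ i j y, y ∈ E i → y ∈ E j → (i, j) ∈ g) :
    (Fintype.card ι * M) ^ 2 ≤ Fintype.card Y * (g.card * M) := by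
  have h1 : ∑ y : Y, ∑ i : ι, (if y ∈ E i then 1 else 0) = Fintype.card ι * M := by
    rw [Finset.sum_comm]
    have : ∀ i : ι, ∑ y : Y, (if y ∈ E i then 1 else 0) = M := by
      intro i
      rw [← hE i, Finset.card_eq_sum_ones, ← Finset.sum_filter, Finset.filter_mem_eq_inter,
        Finset.univ_inter]
    rw [Finset.sum_congr rfl fun i _ => this i, Finset.sum_const, Finset.card_univ, smul_eq_mul]
  have h2 : ∑ y : Y, (∑ i : ι, (if y ∈ E i then 1 else 0)) ^ 2 ≤ g.card * M := by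
    have h3 : ∀ y : Y, (∑ i : ι, (if y ∈ E i then 1 else 0)) ^ 2 =
        ∑ p : ι × ι, (if y ∈ E p.1 ∧ y ∈ E p.2 then 1 else 0) := by
      intro y
      rw [sq, Finset.sum_mul_sum, Fintype.sum_prod_type]
      refine Finset.sum_congr rfl fun i _ => Finset.sum_congr rfl fun j _ => ?_
      by_cases hi : y ∈ E i <;> by_cases hj : y ∈ E j <;> simp [hi, hj]
    rw [Finset.sum_congr rfl fun y _ => h3 y, Finset.sum_comm]
    have h4 : ∀ p : ι × ι, ∑ y : Y, (if y ∈ E p.1 ∧ y ∈ E p.2 then 1 else 0) ≤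
        if p ∈ g then M else 0 := by
      intro p
      by_cases hp : p ∈ g
      · rw [if_pos hp, ← hE p.1, Finset.card_eq_sum_ones]
        rw [← Finset.sum_filter]
        refine Finset.sum_le_sum_of_subset fun y hy => ?_
        exact (Finset.mem_filter.1 hy).2.1
      · rw [if_neg hp]
        refine le_of_eq (Finset.sum_eq_zero fun y _ => if_neg fun h => hp ?_)
        exact hg p.1 p.2 y h.1 h.2
    refine (Finset.sum_le_sum fun p _ => h4 p).trans ?_
    rw [← Finset.sum_filter, Finset.filter_mem_eq_inter, Finset.univ_inter, Finset.sum_const,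
      smul_eq_mul]
  have h5 := sq_sum_le_card_mul_sum_sq (s := (Finset.univ : Finset Y))
    (f := fun y : Y => ∑ i : ι, (if y ∈ E i then 1 else 0))
  rw [h1, Finset.card_univ] at h5
  exact h5.trans (Nat.mul_le_mul_left _ h2)

section

variable {W V : Type*} {F : SimpleGraph W} {H : SimpleGraph V} {ι : Type*}

/-- the pairs of copies which can be glued -/
def Good (P : Set W) (v : W) (c : ι → F.Copy H) (p : ι × ι) : Prop :=
  c p.1 v = c p.2 v ∧ ∀ a ∈ P, ∀ b, b ∉ P → b ≠ v → c p.1 a ≠ c p.2 b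

open scoped Classical in
/-- there are many pairs which can be glued -/
theorem many_good [Fintype W] [Fintype V] [Fintype ι] (P : Set W) (v : W) (hv : v ∉ P)
    (c : ι → F.Copy H) :
    (Fintype.card ι) ^ 2 ≤ 2 ^ (Fintype.card W - 1) * Fintype.card V *
      (Finset.univ.filter fun p : ι × ι => Good P v c p).card := by
  by_cases hne : Nonempty ι
  swap
  · rw [not_nonempty_iff] at hne
    rw [Fintype.card_eq_zero]
    simp
  have hinj : ∀ i, Function.Injective (c i) := fun i => (c i).injective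
  set A : ι → Finset V := fun i => (Finset.univ.filter fun a => a ∈ P).image (c i) with hA
  set B : ι → Finset V := fun i => (Finset.univ.filter fun a => a ∉ P ∧ a ≠ v).image (c i) with hB
  have hcW : (Finset.univ.filter fun a : W => a ∈ P).card +
      (Finset.univ.filter fun a : W => a ∉ P ∧ a ≠ v).card = Fintype.card W - 1 := by
    rw [← Finset.card_union_of_disjoint]
    · have : (Finset.univ.filter fun a => a ∈ P) ∪
          (Finset.univ.filter fun a => a ∉ P ∧ a ≠ v) = Finset.univ.erase v := by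
        ext x
        rw [Finset.mem_union, Finset.mem_filter, Finset.mem_filter, Finset.mem_erase]
        constructor
        · rintro (hx | hx)
          · exact ⟨fun h => hv (h ▸ hx.2), Finset.mem_univ _⟩
          · exact ⟨hx.2.2, Finset.mem_univ _⟩
        · intro hx
          by_cases hxP : x ∈ P
          · exact Or.inl ⟨Finset.mem_univ _, hxP⟩
          · exact Or.inr ⟨Finset.mem_univ _, hxP, hx.1⟩
      rw [this, Finset.card_erase_of_mem (Finset.mem_univ _), Finset.card_univ]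
    · rw [Finset.disjoint_left]
      intro x hx hx'
      rw [Finset.mem_filter] at hx hx'
      exact hx'.2.1 hx.2
  have hcAB : ∀ i, (A i).card + (B i).card = Fintype.card W - 1 := fun i => by
    rw [hA, hB]
    simp only
    rw [Finset.card_image_of_injective _ (hinj i), Finset.card_image_of_injective _ (hinj i), hcW]
  have hdis : ∀ i, Disjoint (A i) (B i) := by
    intro i
    rw [Finset.disjoint_left]
    intro x hx hx'
    obtain ⟨a, ha, rfl⟩ := Finset.mem_image.1 hx
    obtain ⟨b, hb, hab⟩ := Finset.mem_image.1 hx'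
    rw [Finset.mem_filter] at ha hb
    have := hinj i hab
    rw [this] at hb
    exact hb.2.1 ha.2
  have hsub : ∀ i, A i ⊆ (B i)ᶜ := by
    intro i x hx
    rw [Finset.mem_compl]
    exact fun hx' => Finset.disjoint_left.1 (hdis i) hx hx'
  set M : ℕ := 2 ^ (Fintype.card V - (Fintype.card W - 1)) with hM
  have hcardE : ∀ i, (({c i v} : Finset V) ×ˢ Finset.Icc (A i) (B i)ᶜ).card = M := by
    intro i
    rw [Finset.card_product, Finset.card_singleton, one_mul, Finset.card_Icc_finset (hsub i),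
      Finset.card_compl, hM]
    congr 1
    have := hcAB i
    omega
  have hVW : Fintype.card W - 1 ≤ Fintype.card V := by
    obtain ⟨i⟩ := hne
    have h1 := hcAB i
    have h2 : (A i ∪ B i).card ≤ Fintype.card V := Finset.card_le_univ _
    rw [Finset.card_union_of_disjoint (hdis i)] at h2
    omega
  have h := double (fun i => ({c i v} : Finset V) ×ˢ Finset.Icc (A i) (B i)ᶜ) M hcardE
    (Finset.univ.filter fun p : ι × ι => Good P v c p) (by
      rintro i j ⟨z, X⟩ hi hj
      rw [Finset.mem_product, Finset.mem_singleton, Finset.mem_Icc] at hi hj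
      rw [Finset.mem_filter]
      refine ⟨Finset.mem_univ _, hi.1.symm.trans hj.1, ?_⟩
      intro a ha b hb hbv hab
      have hm1 : c i a ∈ A i :=
        Finset.mem_image.2 ⟨a, Finset.mem_filter.2 ⟨Finset.mem_univ _, ha⟩, rfl⟩
      have hm2 : c i a ∈ B j :=
        Finset.mem_image.2 ⟨b, Finset.mem_filter.2 ⟨Finset.mem_univ _, hb, hbv⟩, hab.symm⟩
      exact Finset.mem_compl.1 (hj.2.2 (hi.2.1 hm1)) hm2)
  rw [Fintype.card_prod, Fintype.card_finset] at h
  have hpow : 2 ^ Fintype.card V = 2 ^ (Fintype.card W - 1) * M := by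
    rw [hM, ← pow_add]
    congr 1
    omega
  rw [hpow] at h
  have hMpos : 0 < M ^ 2 := by positivity
  refine Nat.le_of_mul_le_mul_right ?_ hMpos
  calc (Fintype.card ι) ^ 2 * M ^ 2 = (Fintype.card ι * M) ^ 2 := by ring
    _ ≤ _ := h
    _ = _ := by ring

/-- different pairs give different copies -/
theorem glue_injective (P : Set W) {p₀ u₀ q₀ w₀ : W} (hp₀ : p₀ ∈ P)
    (hpu : F.Adj p₀ u₀) (hq₀ : q₀ ∉ P) (hw₀ : w₀ ∉ P) (hqw : F.Adj q₀ w₀) {c : ι → F.Copy H}
    (hd : Pairwise fun i j => Disjoint (c i).toSubgraph.edgeSet (c j).toSubgraph.edgeSet)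
    {i j i' j' : ι} {e e' : F.Copy H} (hu₀ : e u₀ = c i u₀)
    (he1 : ∀ a ∈ P, e a = c i a) (he2 : ∀ a, a ∉ P → e a = c j a)
    (he1' : ∀ a ∈ P, e' a = c i' a) (he2' : ∀ a, a ∉ P → e' a = c j' a)
    (hP' : ∀ a b, F.Adj a b → a ∈ P → e' b = c i' b)
    (hee : e.toSubgraph = e'.toSubgraph) : i = i' ∧ j = j' := by
  have key : ∀ x y, e'.toSubgraph.Adj x y →
      (∃ a b, F.Adj a b ∧ (a ∈ P ∨ b ∈ P) ∧ c i' a = x ∧ c i' b = y) ∨
      (∃ a b, F.Adj a b ∧ a ∉ P ∧ b ∉ P ∧ c j' a = x ∧ c j' b = y) := by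
    intro x y hxy
    rw [adj_iff] at hxy
    obtain ⟨a, b, hab, rfl, rfl⟩ := hxy
    by_cases ha : a ∈ P
    · left
      exact ⟨a, b, hab, Or.inl ha, (he1' a ha).symm, (hP' a b hab ha).symm⟩
    · by_cases hb : b ∈ P
      · left
        exact ⟨a, b, hab, Or.inr hb, (hP' b a hab.symm hb).symm, (he1' b hb).symm⟩
      · right
        exact ⟨a, b, hab, ha, hb, (he2' a ha).symm, (he2' b hb).symm⟩
  have hadj : ∀ (l : ι) (a b : W), F.Adj a b → (c l).toSubgraph.Adj (c l a) (c l b) := by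
    intro l a b hab
    rw [adj_iff]
    exact ⟨a, b, hab, rfl, rfl⟩
  constructor
  · have h1 : e'.toSubgraph.Adj (c i p₀) (c i u₀) := by
      rw [← hee, adj_iff]
      exact ⟨p₀, u₀, hpu, he1 p₀ hp₀, hu₀⟩
    rcases key _ _ h1 with ⟨a, b, hab, _, ha, hb⟩ | ⟨a, b, hab, haP, _, ha, hb⟩
    · refine eq_of_edge hd (hadj i p₀ u₀ hpu) ?_
      rw [adj_iff]
      exact ⟨a, b, hab, ha, hb⟩
    · exfalso
      have hij : i = j' := by
        refine eq_of_edge hd (hadj i p₀ u₀ hpu) ?_
        rw [adj_iff]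
        exact ⟨a, b, hab, ha, hb⟩
      rw [← hij] at ha
      have := (c i).injective ha
      exact haP (this ▸ hp₀)
  · have h1 : e'.toSubgraph.Adj (c j q₀) (c j w₀) := by
      rw [← hee, adj_iff]
      exact ⟨q₀, w₀, hqw, he2 q₀ hq₀, he2 w₀ hw₀⟩
    rcases key _ _ h1 with ⟨a, b, hab, hP, ha, hb⟩ | ⟨a, b, hab, _, _, ha, hb⟩
    · exfalso
      have hij : j = i' := by
        refine eq_of_edge hd (hadj j q₀ w₀ hqw) ?_
        rw [adj_iff]
        exact ⟨a, b, hab, ha, hb⟩
      rw [← hij] at ha hb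
      have h2 := (c j).injective ha
      have h3 := (c j).injective hb
      rcases hP with h | h
      · exact hq₀ (h2 ▸ h)
      · exact hw₀ (h3 ▸ h)
    · refine eq_of_edge hd (hadj j q₀ w₀ hqw) ?_
      rw [adj_iff]
      exact ⟨a, b, hab, ha, hb⟩

/-- **The quantitative theorem.** -/
theorem many [Fintype W] [Fintype V] [Fintype ι] (hiso : ∀ a, ∃ b, F.Adj a b) (v : W)
    (hv : ¬ (F.induce {v}ᶜ).Connected) {c : ι → F.Copy H}
    (hd : Pairwise fun i j => Disjoint (c i).toSubgraph.edgeSet (c j).toSubgraph.edgeSet) :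
    (Fintype.card ι) ^ 2 ≤ 2 ^ (Fintype.card W - 1) * Fintype.card V *
      Nat.card {T : H.Subgraph // Nonempty (F ≃g T.coe)} := by
  classical
  have hne : Nonempty ({v}ᶜ : Set W) := by
    obtain ⟨b, hb⟩ := hiso v
    exact ⟨⟨b, fun h : b = v => hb.ne h.symm⟩⟩
  have hpre : ¬ (F.induce {v}ᶜ).Preconnected := fun h => hv ⟨h⟩
  unfold SimpleGraph.Preconnected at hpre
  push Not at hpre
  obtain ⟨x, y, hxy⟩ := hpre
  set P : Set W := {w | ∃ hw : w ∈ ({v}ᶜ : Set W), (F.induce {v}ᶜ).Reachable x ⟨w, hw⟩} with hP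
  have hvP : v ∉ P := fun ⟨hw, _⟩ => hw rfl
  have hxP : (x : W) ∈ P := ⟨x.2, SimpleGraph.Reachable.refl _⟩
  have hyP : (y : W) ∉ P := fun ⟨_, h⟩ => hxy h
  have hPQ : ∀ a b, a ∈ P → b ∉ P → b ≠ v → ¬ F.Adj a b := by
    rintro a b ⟨ha, hxa⟩ hb hbv hab
    refine hb ⟨hbv, hxa.trans ?_⟩
    exact SimpleGraph.Adj.reachable (by simpa using hab)
  obtain ⟨u₀, hu₀⟩ := hiso x
  obtain ⟨w₀, hw₀⟩ := hiso y
  have hw₀P : w₀ ∉ P := fun h => hPQ w₀ y h hyP y.2 hw₀.symm
  have hglue : ∀ p : ι × ι, Good P v c p → ∃ e : F.Copy H,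
      (∀ a ∈ P, e a = c p.1 a) ∧ (∀ a, a ∉ P → e a = c p.2 a) := by
    rintro ⟨i, j⟩ ⟨h1, h2⟩
    exact glue P v hvP hPQ (c i) (c j) h1 h2
  have hb : ∀ (p : ι × ι) (_ : Good P v c p) (e : F.Copy H), (∀ a ∈ P, e a = c p.1 a) →
      (∀ a, a ∉ P → e a = c p.2 a) → ∀ a b, F.Adj a b → a ∈ P → e b = c p.1 b := by
    intro p hp e he1 he2 a b hab ha
    by_cases hbP : b ∈ P
    · exact he1 b hbP
    · have hbv : b = v := by
        by_contra h
        exact hPQ a b ha hbP h hab
      rw [hbv, he2 v hvP, hp.1]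
  set g := Finset.univ.filter fun p : ι × ι => Good P v c p with hg
  have hgood : ∀ p : g, Good P v c p.1 := fun p => (Finset.mem_filter.1 p.2).2
  choose e he1 he2 using fun p : g => hglue p.1 (hgood p)
  have hfin : Finite {T : H.Subgraph // Nonempty (F ≃g T.coe)} := inferInstance
  have hcard : g.card ≤ Nat.card {T : H.Subgraph // Nonempty (F ≃g T.coe)} := by
    have h1 : Nat.card g ≤ Nat.card {T : H.Subgraph // Nonempty (F ≃g T.coe)} := by
      refine Nat.card_le_card_of_injective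
        (fun p : g => (⟨(e p).toSubgraph, ⟨(e p).isoToSubgraph⟩⟩ :
          {T : H.Subgraph // Nonempty (F ≃g T.coe)})) ?_
      intro p q hpq
      have hpq' : (e p).toSubgraph = (e q).toSubgraph := congrArg Subtype.val hpq
      have h2 := glue_injective P hxP hu₀ hyP hw₀P hw₀ hd
        (hb p.1 (hgood p) (e p) (he1 p) (he2 p) x u₀ hu₀ hxP)
        (he1 p) (he2 p) (he1 q) (he2 q) (hb q.1 (hgood q) (e q) (he1 q) (he2 q)) hpq'
      exact Subtype.ext (Prod.ext h2.1 h2.2)
    rwa [Nat.card_eq_fintype_card, Fintype.card_coe] at h1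
  exact (many_good P v hvP c).trans (Nat.mul_le_mul_left _ hcard)

end

end Pool.Agent.J6H5.CV
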